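import Mathlib

/-!
If `h_{n+1} > 2 (n + 1) h_n` for a finite connected vertex-transitive graph, then every realizer
of `h_n` is a system of imprimitivity of the automorphism group.
-/

namespace Pool.Agent.Results.MP_8474a0_co.AllRealizersImprimitive

open Finset

variable {V : Type*} [Fintype V] [DecidableEq V]

open Classical in
/-- `|∂S|`: the number of edges with one endpoint in `S` and the other outside `S`, counted as
pairs `(u, v)` with `u ∈ S`, `v ∉ S`. -/
noncomputable def bd (Γ : SimpleGraph V) (S : Finset V) : ℕ :=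
  (univ.filter (fun p : V × V => Γ.Adj p.1 p.2 ∧ p.1 ∈ S ∧ p.2 ∉ S)).card

/-- The `i`-th part of the partition given by `f`. -/
def part {n : ℕ} (f : V → Fin n) (i : Fin n) : Finset V := univ.filter (fun v => f v = i)

/-- `|∂A_i| / |A_i|` for the `i`-th part of the partition given by `f`. -/
noncomputable def ratio (Γ : SimpleGraph V) {n : ℕ} (f : V → Fin n) (i : Fin n) : ℝ :=
  (bd Γ (part f i) : ℝ) / ((part f i).card : ℝ)

/-- `max_i |∂A_i| / |A_i|`. -/
noncomputable def maxRatio (Γ : SimpleGraph V) {n : ℕ} (f : V → Fin n) : ℝ :=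
  ⨆ i, ratio Γ f i

/-- The `n`-way isoperimetric constant: the minimum of `maxRatio` over all partitions of `V` into
`n` nonempty parts. -/
noncomputable def h (Γ : SimpleGraph V) (n : ℕ) : ℝ :=
  sInf {x | ∃ f : V → Fin n, Function.Surjective f ∧ x = maxRatio Γ f}

/-- `f` is a realizer of `h_n(Γ)`. -/
def IsRealizer (Γ : SimpleGraph V) {n : ℕ} (f : V → Fin n) : Prop :=
  Function.Surjective f ∧ maxRatio Γ f = h Γ n

/-- The partition given by `f` is a system of imprimitivity for `Aut(Γ)`. -/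
def IsImprimitive (Γ : SimpleGraph V) {n : ℕ} (f : V → Fin n) : Prop :=
  ∀ (g : Γ ≃g Γ) (i : Fin n), ∃ j, (part f i).image g = part f j

/-- Vertex-transitivity. -/
def VertexTransitive (Γ : SimpleGraph V) : Prop := ∀ u v : V, ∃ g : Γ ≃g Γ, g u = v

/-! ### Cuts as sums -/

section cuts

variable (Γ : SimpleGraph V)

open Classical in
/-- twice the boundary, as a sum over ordered pairs -/
noncomputable def D (X : Finset V) : ℝ :=
  ∑ p : V × V, if Γ.Adj p.1 p.2 ∧ ¬ (p.1 ∈ X ↔ p.2 ∈ X) then 1 else 0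

open Classical in
theorem D_eq (X : Finset V) : D Γ X = 2 * (bd Γ X : ℝ) := by
  have h1 : (bd Γ X : ℝ) = ∑ p : V × V, if Γ.Adj p.1 p.2 ∧ p.1 ∈ X ∧ p.2 ∉ X then 1 else 0 := by
    unfold bd
    rw [Finset.sum_boole]
  have h2 : (bd Γ X : ℝ) = ∑ p : V × V, if Γ.Adj p.1 p.2 ∧ p.2 ∈ X ∧ p.1 ∉ X then 1 else 0 := by
    rw [h1, ← Equiv.sum_comp (Equiv.prodComm V V)]
    refine sum_congr rfl fun p _ => ?_
    simp only [Equiv.prodComm_apply, Prod.fst_swap, Prod.snd_swap, Γ.adj_comm p.2 p.1]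
  rw [two_mul]
  nth_rewrite 1 [h1]
  rw [h2, ← sum_add_distrib]
  unfold D
  refine sum_congr rfl fun p _ => ?_
  by_cases ha : Γ.Adj p.1 p.2 <;> by_cases h1 : p.1 ∈ X <;> by_cases h2 : p.2 ∈ X <;>
    simp [ha, h1, h2]

theorem bd_sdiff_le (X Y : Finset V) : (bd Γ (X \ Y) : ℝ) ≤ bd Γ X + bd Γ Y := by
  have : D Γ (X \ Y) ≤ D Γ X + D Γ Y := by
    classical
    unfold D
    rw [← sum_add_distrib]
    refine sum_le_sum fun p _ => ?_
    by_cases ha : Γ.Adj p.1 p.2 <;> by_cases h1 : p.1 ∈ X <;> by_cases h2 : p.2 ∈ X <;>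
      by_cases h3 : p.1 ∈ Y <;> by_cases h4 : p.2 ∈ Y <;> simp [ha, h1, h2, h3, h4]
  rw [D_eq, D_eq, D_eq] at this
  linarith

theorem bd_inter_le (X Y : Finset V) : (bd Γ (X ∩ Y) : ℝ) ≤ bd Γ X + bd Γ Y := by
  have : D Γ (X ∩ Y) ≤ D Γ X + D Γ Y := by
    classical
    unfold D
    rw [← sum_add_distrib]
    refine sum_le_sum fun p _ => ?_
    by_cases ha : Γ.Adj p.1 p.2 <;> by_cases h1 : p.1 ∈ X <;> by_cases h2 : p.2 ∈ X <;>
      by_cases h3 : p.1 ∈ Y <;> by_cases h4 : p.2 ∈ Y <;> simp [ha, h1, h2, h3, h4]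
  rw [D_eq, D_eq, D_eq] at this
  linarith

theorem bd_sdiff_add_le (X Y : Finset V) :
    (bd Γ (X \ Y) : ℝ) + bd Γ (Y \ X) ≤ bd Γ X + bd Γ Y := by
  have : D Γ (X \ Y) + D Γ (Y \ X) ≤ D Γ X + D Γ Y := by
    classical
    unfold D
    rw [← sum_add_distrib, ← sum_add_distrib]
    refine sum_le_sum fun p _ => ?_
    by_cases ha : Γ.Adj p.1 p.2 <;> by_cases h1 : p.1 ∈ X <;> by_cases h2 : p.2 ∈ X <;>
      by_cases h3 : p.1 ∈ Y <;> by_cases h4 : p.2 ∈ Y <;> simp [ha, h1, h2, h3, h4]
  rw [D_eq, D_eq, D_eq, D_eq] at this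
  linarith

open Classical in
/-- ordered adjacent pairs in `X × Y` -/
noncomputable def e (X Y : Finset V) : ℝ :=
  ∑ p : V × V, if Γ.Adj p.1 p.2 ∧ p.1 ∈ X ∧ p.2 ∈ Y then 1 else 0

theorem bd_sdiff_le' (X Y : Finset V) : (bd Γ (X \ Y) : ℝ) ≤ bd Γ X + e Γ (X \ Y) Y := by
  classical
  have h1 : ∀ X, (bd Γ X : ℝ) = ∑ p : V × V, if Γ.Adj p.1 p.2 ∧ p.1 ∈ X ∧ p.2 ∉ X then 1 else 0 := by
    intro X
    unfold bd
    rw [Finset.sum_boole]
  rw [h1, h1]
  unfold e
  rw [← sum_add_distrib]
  refine sum_le_sum fun p _ => ?_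
  by_cases ha : Γ.Adj p.1 p.2 <;> by_cases h1 : p.1 ∈ X <;> by_cases h2 : p.2 ∈ X <;>
    by_cases h3 : p.1 ∈ Y <;> by_cases h4 : p.2 ∈ Y <;> simp [ha, h1, h2, h3, h4]

/-- crossing pairs of a partition -/
theorem sum_bd {n : ℕ} (f : V → Fin n) : (∑ i, (bd Γ (part f i) : ℝ)) =
    ∑ p : V × V, open Classical in if Γ.Adj p.1 p.2 ∧ f p.1 ≠ f p.2 then 1 else 0 := by
  classical
  have h1 : ∀ X, (bd Γ X : ℝ) = ∑ p : V × V, if Γ.Adj p.1 p.2 ∧ p.1 ∈ X ∧ p.2 ∉ X then 1 else 0 := by
    intro X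
    unfold bd
    rw [Finset.sum_boole]
  simp_rw [h1]
  rw [sum_comm]
  refine sum_congr rfl fun p _ => ?_
  rw [Finset.sum_eq_single (f p.1)]
  · unfold part
    by_cases ha : Γ.Adj p.1 p.2 <;> by_cases h2 : f p.1 = f p.2
    · simp [ha, h2]
    · simp [ha, h2, Ne.symm h2]
    · simp [ha]
    · simp [ha]
  · intro i _ hi
    unfold part
    simp [Ne.symm hi]
  · simp

end cuts

section main

set_option linter.unusedSectionVars false

variable (Γ : SimpleGraph V)

open Classical in
theorem sum_bd_inter {n : ℕ} (X : Finset V) (B : V → Fin n) :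
    (∑ j, (bd Γ (X ∩ part B j) : ℝ)) ≤ bd Γ X + ∑ j, (bd Γ (part B j) : ℝ) := by
  have h1 : ∀ X, (bd Γ X : ℝ) = ∑ p : V × V, if Γ.Adj p.1 p.2 ∧ p.1 ∈ X ∧ p.2 ∉ X then 1 else 0 := by
    intro X
    unfold bd
    rw [Finset.sum_boole]
  rw [sum_bd, h1 X]
  simp_rw [h1]
  rw [sum_comm, ← sum_add_distrib]
  refine sum_le_sum fun p _ => ?_
  rw [Finset.sum_eq_single (B p.1)]
  · unfold part
    by_cases ha : Γ.Adj p.1 p.2 <;> by_cases h2 : p.1 ∈ X <;> by_cases h3 : p.2 ∈ X <;>
      by_cases h4 : B p.1 = B p.2 <;> simp [ha, h2, h3, h4, Ne.symm]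
  · intro i _ hi
    unfold part
    simp [Ne.symm hi]
  · simp

noncomputable instance : Fintype (Γ ≃g Γ) :=
  have : Finite (Γ ≃g Γ) := Finite.of_injective (fun g => g.toEquiv) RelIso.toEquiv_injective
  Fintype.ofFinite _

theorem card_part_sum {n : ℕ} (A : V → Fin n) :
    (∑ i, ((part A i).card : ℝ)) = Fintype.card V := by
  have : (∑ i, (part A i).card) = Fintype.card V := by
    have h := Finset.card_eq_sum_card_fiberwise (f := A) (s := (univ : Finset V))
      (t := (univ : Finset (Fin n))) (fun x _ => mem_coe.2 (mem_univ _))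
    rw [Finset.card_univ] at h
    exact h.symm
  exact_mod_cast this

/-- The only property of `h_{n+1}` that is used. -/
def Hyp (n : ℕ) (lam : ℝ) : Prop := ∀ (A : V → Fin n) (X : Finset V),
  lam * X.card ≤ bd Γ X ∨ ∃ k, lam * (part A k \ X).card ≤ bd Γ (part A k \ X)

/-- A partition all of whose parts have ratio at most `mu`. -/
def Good {n : ℕ} (mu : ℝ) (A : V → Fin n) : Prop :=
  Function.Surjective A ∧ ∀ i, (bd Γ (part A i) : ℝ) ≤ mu * (part A i).card

theorem Good.card_pos {n : ℕ} {mu : ℝ} {A : V → Fin n} (hA : Good Γ mu A) (i : Fin n) :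
    0 < ((part A i).card : ℝ) := by
  obtain ⟨v, hv⟩ := hA.1 i
  have : 0 < (part A i).card := Finset.card_pos.2 ⟨v, by unfold part; simp [hv]⟩
  exact_mod_cast this

theorem avg (hvt : VertexTransitive Γ) (w : V → ℝ) (v : V) :
    (Fintype.card V : ℝ) * ∑ g : Γ ≃g Γ, w (g v) = Fintype.card (Γ ≃g Γ) * ∑ u, w u := by
  have hc : ∀ u, ∑ g : Γ ≃g Γ, w (g u) = ∑ g : Γ ≃g Γ, w (g v) := by
    intro u
    obtain ⟨k, hk⟩ := hvt v u
    rw [← Equiv.sum_comp (Equiv.mulRight k) (fun g : Γ ≃g Γ => w (g v))]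
    refine sum_congr rfl fun g _ => ?_
    rw [Equiv.coe_mulRight, RelIso.mul_apply, hk]
  calc (Fintype.card V : ℝ) * ∑ g : Γ ≃g Γ, w (g v) = ∑ _u : V, ∑ g : Γ ≃g Γ, w (g v) := by
        rw [sum_const, card_univ, nsmul_eq_mul]
    _ = ∑ u : V, ∑ g : Γ ≃g Γ, w (g u) := by
        refine sum_congr rfl fun u _ => (hc u).symm
    _ = ∑ g : Γ ≃g Γ, ∑ u : V, w (g u) := sum_comm
    _ = ∑ _g : Γ ≃g Γ, ∑ u : V, w u := by
        refine sum_congr rfl fun g _ => ?_
        exact Equiv.sum_comp g.toEquiv w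
    _ = _ := by rw [sum_const, card_univ, nsmul_eq_mul]

theorem avg_inv (hvt : VertexTransitive Γ) (w : V → ℝ) (v : V) :
    (Fintype.card V : ℝ) * ∑ g : Γ ≃g Γ, w (g⁻¹ v) = Fintype.card (Γ ≃g Γ) * ∑ u, w u := by
  rw [← avg Γ hvt w v]
  congr 1
  exact Equiv.sum_comp (Equiv.inv (Γ ≃g Γ)) (fun g : Γ ≃g Γ => w (g v))

open Classical in
/-- number of neighbours of `x ∉ Y` in `Y` -/
noncomputable def wt (Y : Finset V) (x : V) : ℝ :=
  ∑ y, if Γ.Adj x y ∧ x ∉ Y ∧ y ∈ Y then 1 else 0

theorem wt_nonneg (Y : Finset V) (x : V) : 0 ≤ wt Γ Y x := by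
  unfold wt
  exact sum_nonneg fun y _ => by split_ifs <;> norm_num

theorem e_eq (X Y : Finset V) : e Γ (X \ Y) Y = ∑ x ∈ X, wt Γ Y x := by
  classical
  unfold e wt
  rw [Fintype.sum_prod_type, ← Finset.sum_filter_add_sum_filter_not univ (fun x => x ∈ X)]
  rw [Finset.sum_eq_zero (s := univ.filter (fun x => ¬ x ∈ X)), add_zero]
  · rw [Finset.filter_mem_eq_inter, univ_inter]
    refine sum_congr rfl fun x hx => ?_
    refine sum_congr rfl fun y _ => ?_
    simp [hx]
  · intro x hx
    rw [mem_filter] at hx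
    refine Finset.sum_eq_zero fun y _ => ?_
    simp [hx.2]

theorem sum_wt (Y : Finset V) : ∑ x, wt Γ Y x = bd Γ Y := by
  classical
  unfold bd wt
  rw [← Fintype.sum_prod_type' (fun x y => if Γ.Adj x y ∧ x ∉ Y ∧ y ∈ Y then (1 : ℝ) else 0),
    ← Equiv.sum_comp (Equiv.prodComm V V), ← Finset.sum_boole]
  refine sum_congr rfl fun p _ => ?_
  simp only [Equiv.prodComm_apply, Prod.fst_swap, Prod.snd_swap, Γ.adj_comm p.2 p.1]
  congr 1
  simp only [eq_iff_iff]
  tauto

theorem wt_image (Y : Finset V) (g : Γ ≃g Γ) (x : V) :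
    wt Γ (Y.image g) x = wt Γ Y (g⁻¹ x) := by
  classical
  unfold wt
  rw [← Equiv.sum_comp g.toEquiv (fun y => if Γ.Adj x y ∧ x ∉ Y.image g ∧ y ∈ Y.image g
    then (1 : ℝ) else 0)]
  refine sum_congr rfl fun y _ => ?_
  have hx : x = g (g⁻¹ x) := (RelIso.apply_inv_self g x).symm
  have hmem : ∀ z, g z ∈ Y.image g ↔ z ∈ Y := by
    intro z
    rw [mem_image]
    constructor
    · rintro ⟨a, ha, hz⟩
      rwa [← g.injective hz]
    · intro hz
      exact ⟨z, hz, rfl⟩
  have h1 : (Γ.Adj x (g.toEquiv y) ∧ x ∉ Y.image g ∧ g.toEquiv y ∈ Y.image g) ↔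
      (Γ.Adj (g⁻¹ x) y ∧ g⁻¹ x ∉ Y ∧ y ∈ Y) := by
    have h2 : Γ.Adj x (g.toEquiv y) ↔ Γ.Adj (g⁻¹ x) y := by
      conv_lhs => rw [hx]
      exact g.map_adj_iff
    have h3 : x ∉ Y.image g ↔ g⁻¹ x ∉ Y := by
      conv_lhs => rw [hx]
      rw [hmem]
    have h4 : g.toEquiv y ∈ Y.image g ↔ y ∈ Y := hmem y
    rw [h2, h3, h4]
  simp only [h1]

theorem bd_image (Y : Finset V) (g : Γ ≃g Γ) : bd Γ (Y.image g) = bd Γ Y := by
  have : (bd Γ (Y.image g) : ℝ) = bd Γ Y := by
    rw [← sum_wt, ← sum_wt]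
    simp_rw [wt_image]
    exact Equiv.sum_comp (g⁻¹ : Γ ≃g Γ).toEquiv (wt Γ Y)
  exact_mod_cast this

theorem mem_part {n : ℕ} {A : V → Fin n} {i : Fin n} {v : V} : v ∈ part A i ↔ A v = i := by
  unfold part; simp

theorem size_bound (hvt : VertexTransitive Γ) {n : ℕ} {mu lam : ℝ} (hn : 2 ≤ n) (hmu : 0 < mu)
    (hlam : 2 * (n + 1) * mu < lam) (H : Hyp Γ n lam) {A : V → Fin n} (hA : Good Γ mu A)
    (k0 : Fin n) : (Fintype.card V : ℝ) ≤ (n + 1) * (part A k0).card := by
  classical
  by_contra hcon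
  push Not at hcon
  set S := part A k0 with hS
  have hs : 0 < (S.card : ℝ) := hA.card_pos Γ k0
  set N : ℝ := ((Fintype.card V : ℕ) : ℝ) with hN
  have hNpos : 0 < N := by
    have : (0 : ℝ) < (n + 1) * S.card := by positivity
    linarith
  have hn' : (2 : ℝ) ≤ n := by exact_mod_cast hn
  have hlm : 0 < lam - mu := by nlinarith
  have hlampos : 0 < lam := by linarith
  -- the weight
  set W : V → ℝ := fun x => wt Γ S x + lam * (if x ∈ S then 1 else 0) with hW
  have hWnn : ∀ x, 0 ≤ W x := by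
    intro x
    have := wt_nonneg Γ S x
    simp only [hW]
    split_ifs <;> nlinarith
  have hWsum : ∑ x, W x = bd Γ S + lam * S.card := by
    simp only [hW]
    rw [sum_add_distrib, sum_wt, ← mul_sum, Finset.sum_boole]
    simp
  -- the two kinds of translates
  let γ : Fin n → (Γ ≃g Γ) → (Γ ≃g Γ) := fun k g => if k = k0 then g else g⁻¹
  let T : Fin n → (Γ ≃g Γ) → ℝ := fun k g =>
    (∑ x ∈ part A k, W (γ k g x)) / ((lam - mu) * (part A k).card)
  have hTnn : ∀ k g, 0 ≤ T k g := by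
    intro k g
    have := hA.card_pos Γ k
    exact div_nonneg (sum_nonneg fun x _ => hWnn _) (by positivity)
  have hG : 0 < (Fintype.card (Γ ≃g Γ) : ℝ) := by
    have : Nonempty (Γ ≃g Γ) := ⟨1⟩
    exact_mod_cast Fintype.card_pos
  set G : ℝ := ((Fintype.card (Γ ≃g Γ) : ℕ) : ℝ) with hGdef
  have hTsum : ∀ k, ∑ g, T k g = G * (bd Γ S + lam * S.card) / (N * (lam - mu)) := by
    intro k
    have hk := hA.card_pos Γ k
    have h1 : ∀ x, N * ∑ g, W (γ k g x) = G * (bd Γ S + lam * S.card) := by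
      intro x
      rw [← hWsum]
      by_cases hkk : k = k0
      · simp only [γ, if_pos hkk]
        exact avg Γ hvt W x
      · simp only [γ, if_neg hkk]
        exact avg_inv Γ hvt W x
    have h2 : ∑ g, T k g = (∑ x ∈ part A k, ∑ g, W (γ k g x)) /
        ((lam - mu) * (part A k).card) := by
      simp only [T]
      rw [← sum_div, sum_comm]
    have h3 : ∑ x ∈ part A k, ∑ g, W (γ k g x) =
        (part A k).card * (G * (bd Γ S + lam * S.card) / N) := by
      rw [← nsmul_eq_mul, ← sum_const]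
      refine sum_congr rfl fun x _ => ?_
      rw [eq_div_iff hNpos.ne', mul_comm]
      exact h1 x
    rw [h2, h3]
    field_simp
  have hex : ∃ g ∈ (univ : Finset (Γ ≃g Γ)), ∑ k, T k g < (fun _ => (1 : ℝ)) g := by
    apply exists_lt_of_sum_lt
    rw [sum_comm]
    simp_rw [hTsum]
    rw [sum_const, sum_const, card_univ, card_univ, Fintype.card_fin, nsmul_eq_mul, nsmul_eq_mul,
      mul_one, ← hGdef, mul_div_assoc', div_lt_iff₀ (by positivity)]
    have h1 := hA.2 k0
    rw [← hS] at h1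
    have h2 : (n : ℝ) * (bd Γ S + lam * S.card) < N * (lam - mu) := by
      have h3 : (n : ℝ) * (bd Γ S + lam * S.card) ≤ n * ((mu + lam) * S.card) := by
        apply mul_le_mul_of_nonneg_left _ (by positivity)
        linarith
      have h4 : (n : ℝ) * ((mu + lam) * S.card) ≤ (n + 1) * S.card * (lam - mu) := by
        have : 0 ≤ (lam - (2 * n + 1) * mu) * S.card := by
          apply mul_nonneg _ hs.le
          nlinarith
        nlinarith
      have h5 : (n + 1) * S.card * (lam - mu) < N * (lam - mu) :=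
        mul_lt_mul_of_pos_right hcon hlm
      linarith
    calc (n : ℝ) * (G * (bd Γ S + lam * S.card)) = G * (n * (bd Γ S + lam * S.card)) := by ring
      _ < G * (N * (lam - mu)) := mul_lt_mul_of_pos_left h2 hG
  obtain ⟨g, -, hg⟩ := hex
  have hT1 : ∀ k, ∑ x ∈ part A k, W (γ k g x) < (lam - mu) * (part A k).card := by
    intro k
    have hk := hA.card_pos Γ k
    have h1 : T k g ≤ ∑ k, T k g := single_le_sum (fun i _ => hTnn i g) (mem_univ k)
    have h2 : T k g < 1 := lt_of_le_of_lt h1 hg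
    simp only [T] at h2
    rwa [div_lt_one (by positivity)] at h2
  -- the sum of `W` splits
  have hsplit : ∀ (X : Finset V) (f : Γ ≃g Γ), ∑ x ∈ X, W (f x) = ∑ x ∈ X, wt Γ S (f x) +
      lam * (X.filter (fun x => f x ∈ S)).card := by
    intro X f
    simp only [hW]
    rw [sum_add_distrib, ← mul_sum, Finset.sum_boole]
  set gS := S.image g with hgS
  have hmem : ∀ z, z ∈ gS ↔ g⁻¹ z ∈ S := by
    intro z
    rw [hgS, mem_image]
    constructor
    · rintro ⟨a, ha, rfl⟩
      rwa [RelIso.inv_apply_self]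
    · intro hz
      exact ⟨_, hz, RelIso.apply_inv_self g z⟩
  have hgScard : (gS.card : ℝ) = S.card := by
    rw [hgS, card_image_of_injective _ g.injective]
  -- parts other than `k0`
  have hother : ∀ k, k ≠ k0 → (bd Γ (part A k \ gS) : ℝ) < lam * (part A k \ gS).card := by
    intro k hk
    have h1 := hT1 k
    simp only [γ, if_neg hk] at h1
    rw [hsplit] at h1
    have h2 := bd_sdiff_le' Γ (part A k) gS
    rw [e_eq] at h2
    have h3 : ∑ x ∈ part A k, wt Γ gS x = ∑ x ∈ part A k, wt Γ S (g⁻¹ x) := by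
      refine sum_congr rfl fun x _ => ?_
      rw [hgS, wt_image]
    have h4 : ((part A k \ gS).card : ℝ) = (part A k).card -
        ((part A k).filter (fun x => g⁻¹ x ∈ S)).card := by
      have h5 : part A k \ gS = (part A k).filter (fun x => ¬ g⁻¹ x ∈ S) := by
        ext z
        rw [mem_sdiff, mem_filter, hmem]
      have h6 := card_filter_add_card_filter_not (s := part A k) (fun x => g⁻¹ x ∈ S)
      rw [h5, ← h6]
      push_cast
      ring
    have h5 := hA.2 k
    rw [h4]
    rw [h3] at h2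
    linarith
  have hnew : (bd Γ (gS \ S) : ℝ) < lam * (gS \ S).card := by
    have h1 := hT1 k0
    simp only [γ, if_true] at h1
    rw [hsplit, ← hS] at h1
    have h2 := bd_sdiff_le' Γ gS S
    rw [e_eq] at h2
    have h3 : ∑ x ∈ gS, wt Γ S x = ∑ x ∈ S, wt Γ S (g x) := by
      rw [hgS, sum_image]
      intro a _ b _ hab
      exact g.injective hab
    have h4 : ((gS \ S).card : ℝ) = S.card - (S.filter (fun x => g x ∈ S)).card := by
      have h5 : gS \ S = (S.filter (fun x => ¬ g x ∈ S)).image g := by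
        ext z
        rw [mem_sdiff, hmem, mem_image]
        constructor
        · rintro ⟨ha, hb⟩
          refine ⟨g⁻¹ z, ?_, RelIso.apply_inv_self g z⟩
          rw [mem_filter, RelIso.apply_inv_self]
          exact ⟨ha, hb⟩
        · rintro ⟨a, ha, rfl⟩
          rw [mem_filter] at ha
          rw [RelIso.inv_apply_self]
          exact ha
      have h6 := card_filter_add_card_filter_not (s := S) (fun x => g x ∈ S)
      rw [h5, card_image_of_injective _ g.injective]
      have h7 : (S.card : ℝ) = (S.filter (fun x => g x ∈ S)).card +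
          (S.filter (fun x => ¬ g x ∈ S)).card := by
        exact_mod_cast h6.symm
      linarith
    have h5 := hA.2 k0
    rw [← hS] at h5
    have h6 : (bd Γ gS : ℝ) = bd Γ S := by rw [hgS, bd_image]
    rw [h4]
    rw [h3] at h2
    linarith
  rcases H A (gS \ S) with h1 | ⟨k, hk⟩
  · linarith
  · by_cases hkk : k = k0
    · subst hkk
      have h2 : part A k \ (gS \ S) = S := by
        ext z
        rw [mem_sdiff, mem_sdiff, ← hS]
        tauto
      rw [h2] at hk
      have h3 := hA.2 k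
      rw [← hS] at h3
      nlinarith
    · have h2 : part A k \ (gS \ S) = part A k \ gS := by
        ext z
        rw [mem_sdiff, mem_sdiff, mem_sdiff]
        constructor
        · rintro ⟨ha, hb⟩
          refine ⟨ha, fun hc => hb ⟨hc, fun hd => ?_⟩⟩
          rw [hS, mem_part] at hd
          rw [mem_part] at ha
          exact hkk (ha.symm.trans hd)
        · rintro ⟨ha, hb⟩
          exact ⟨ha, fun hc => hb hc.1⟩
      rw [h2] at hk
      have := hother k hkk
      linarith

/-- A set of numerical side conditions. -/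
structure Cond (n : ℕ) (mu lam : ℝ) : Prop where
  hn : 2 ≤ n
  hmu : 0 < mu
  hlam : 2 * (n + 1) * mu < lam

theorem part_card_le (hvt : VertexTransitive Γ) {n : ℕ} {mu lam : ℝ} (hc : Cond n mu lam)
    (H : Hyp Γ n lam) {A : V → Fin n} (hA : Good Γ mu A) (i : Fin n) :
    (n + 1) * ((part A i).card : ℝ) ≤ 2 * (Fintype.card V : ℝ) := by
  have h1 := card_part_sum A
  have h2 : ∑ k, ((part A k).card : ℝ) = (part A i).card + ∑ k ∈ univ.erase i,
      ((part A k).card : ℝ) := (add_sum_erase univ _ (mem_univ i)).symm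
  have h3 : (n - 1 : ℝ) * ((Fintype.card V : ℝ) / (n + 1)) ≤ ∑ k ∈ univ.erase i,
      ((part A k).card : ℝ) := by
    have h4 : (univ.erase i).card • ((Fintype.card V : ℝ) / (n + 1)) ≤ ∑ k ∈ univ.erase i,
        ((part A k).card : ℝ) := by
      apply card_nsmul_le_sum
      intro k _
      have := size_bound Γ hvt hc.hn hc.hmu hc.hlam H hA k
      rw [div_le_iff₀ (by positivity)]
      linarith
    rw [card_erase_of_mem (mem_univ i), card_univ, Fintype.card_fin, nsmul_eq_mul,
      Nat.cast_sub (by have := hc.hn; omega)] at h4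
    simpa using h4
  have h5 : (0 : ℝ) < n + 1 := by positivity
  have h6 : (n + 1) * ((n - 1 : ℝ) * ((Fintype.card V : ℝ) / (n + 1))) =
      (n - 1) * (Fintype.card V : ℝ) := by
    field_simp
  have h7 : (n + 1) * ((n - 1 : ℝ) * ((Fintype.card V : ℝ) / (n + 1))) ≤
      (n + 1) * ∑ k ∈ univ.erase i, ((part A k).card : ℝ) := mul_le_mul_of_nonneg_left h3 h5.le
  rw [h6] at h7
  have h8 : (n + 1) * ((part A i).card : ℝ) + (n + 1) * ∑ k ∈ univ.erase i,
      ((part A k).card : ℝ) = (n + 1) * (Fintype.card V : ℝ) := by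
    rw [← mul_add, ← h2, h1]
  linarith

/-- A small piece `X` of a part has a large boundary, when the boundary of the rest is small. -/
theorem piece (hvt : VertexTransitive Γ) {n : ℕ} {mu lam : ℝ} (hc : Cond n mu lam)
    (H : Hyp Γ n lam) {A B : V → Fin n} (hA : Good Γ mu A) (hB : Good Γ mu B) (i j : Fin n)
    (X : Finset V) (hX : X ⊆ part A i) (hX2 : 2 * X.card ≤ (part A i).card)
    (hX3 : (bd Γ (part A i \ X) : ℝ) ≤ bd Γ (part A i) + bd Γ (part B j)) :
    lam * X.card ≤ bd Γ X := by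
  have hn' : (2 : ℝ) ≤ n := by exact_mod_cast hc.hn
  have hmu := hc.hmu
  have hlam := hc.hlam
  have hlampos : 0 < lam := by nlinarith
  rcases H A X with h | ⟨k, hk⟩
  · exact h
  · exfalso
    by_cases hki : k = i
    · subst hki
      have h1 := hA.2 k
      have h2 := hB.2 j
      have h3 := size_bound Γ hvt hc.hn hc.hmu hc.hlam H hA k
      have h4 := part_card_le Γ hvt hc H hB j
      have h5 : ((part A k \ X).card : ℝ) = (part A k).card - X.card := by
        rw [card_sdiff_of_subset hX, Nat.cast_sub (card_le_card hX)]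
      have h6 : 2 * (X.card : ℝ) ≤ (part A k).card := by exact_mod_cast hX2
      rw [h5] at hk
      have hpos := hA.card_pos Γ k
      set a : ℝ := ((part A k).card : ℝ)
      set b : ℝ := ((part B j).card : ℝ)
      set N : ℝ := ((Fintype.card V : ℕ) : ℝ)
      -- lam * a / 2 ≤ mu * a + mu * b
      have h7 : lam * (a / 2) ≤ mu * a + mu * b := by nlinarith
      have h8 : (n + 1) * mu * a < mu * a + mu * b := by nlinarith
      have h9 : n * a < b := by
        have : mu * (n * a) < mu * b := by nlinarith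
        exact lt_of_mul_lt_mul_left this hmu.le
      -- n * a * (n+1) ≥ n * N ≥ 2 N ≥ (n+1) b
      have h10 : (n + 1) * (n * a) < (n + 1) * b := mul_lt_mul_of_pos_left h9 (by positivity)
      have h11 : n * N ≤ n * ((n + 1) * a) := mul_le_mul_of_nonneg_left h3 (by positivity)
      have hN : 0 ≤ N := by positivity
      nlinarith
    · have h1 : part A k \ X = part A k := by
        rw [Finset.sdiff_eq_self_iff_disjoint, disjoint_left]
        intro v hv hvX
        have := hX hvX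
        rw [mem_part] at this hv
        exact hki (hv.symm.trans this)
      rw [h1] at hk
      have h2 := hA.2 k
      have h3 := hA.card_pos Γ k
      nlinarith

theorem inter_sdiff_self_right (X Y : Finset V) : X \ (X ∩ Y) = X \ Y := by
  ext z; simp

theorem sdiff_sdiff_self_right (X Y : Finset V) : X \ (X \ Y) = X ∩ Y := by
  ext z; simp

theorem piece_inter (hvt : VertexTransitive Γ) {n : ℕ} {mu lam : ℝ} (hc : Cond n mu lam)
    (H : Hyp Γ n lam) {A B : V → Fin n} (hA : Good Γ mu A) (hB : Good Γ mu B) (i j : Fin n)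
    (h : 2 * (part A i ∩ part B j).card ≤ (part A i).card) :
    lam * (part A i ∩ part B j).card ≤ bd Γ (part A i ∩ part B j) := by
  refine piece Γ hvt hc H hA hB i j _ inter_subset_left h ?_
  rw [inter_sdiff_self_right]
  exact bd_sdiff_le Γ _ _

theorem piece_sdiff (hvt : VertexTransitive Γ) {n : ℕ} {mu lam : ℝ} (hc : Cond n mu lam)
    (H : Hyp Γ n lam) {A B : V → Fin n} (hA : Good Γ mu A) (hB : Good Γ mu B) (i j : Fin n)
    (h : 2 * (part A i \ part B j).card ≤ (part A i).card) :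
    lam * (part A i \ part B j).card ≤ bd Γ (part A i \ part B j) := by
  refine piece Γ hvt hc H hA hB i j _ sdiff_subset h ?_
  rw [sdiff_sdiff_self_right]
  exact bd_inter_le Γ _ _

theorem sum_bd_le {n : ℕ} {mu : ℝ} {A : V → Fin n} (hA : Good Γ mu A) :
    ∑ i, (bd Γ (part A i) : ℝ) ≤ mu * Fintype.card V := by
  rw [← card_part_sum A, mul_sum]
  exact sum_le_sum fun i _ => hA.2 i

theorem card_inter_sum {n : ℕ} (X : Finset V) (B : V → Fin n) :
    ∑ j, ((X ∩ part B j).card : ℝ) = X.card := by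
  have h := Finset.card_eq_sum_card_fiberwise (f := B) (s := X)
      (t := (univ : Finset (Fin n))) (fun x _ => mem_coe.2 (mem_univ _))
  have h2 : ∀ j, X ∩ part B j = X.filter (fun v => B v = j) := by
    intro j
    ext v
    rw [mem_inter, mem_part, mem_filter]
  simp_rw [h2]
  exact_mod_cast h.symm

/-- Not all pieces of a part can be small. -/
theorem not_all_small (hvt : VertexTransitive Γ) {n : ℕ} {mu lam : ℝ} (hc : Cond n mu lam)
    (H : Hyp Γ n lam) {A B : V → Fin n} (hA : Good Γ mu A) (hB : Good Γ mu B) (i : Fin n)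
    (h : ∀ j, lam * (part A i ∩ part B j).card ≤ bd Γ (part A i ∩ part B j)) : False := by
  have h1 := sum_bd_inter Γ (part A i) B
  have h2 := sum_bd_le Γ hB
  have h3 : lam * (part A i).card ≤ ∑ j, (bd Γ (part A i ∩ part B j) : ℝ) := by
    rw [← card_inter_sum (part A i) B, mul_sum]
    exact sum_le_sum fun j _ => h j
  have h4 := hA.2 i
  have h5 := size_bound Γ hvt hc.hn hc.hmu hc.hlam H hA i
  have h6 := hA.card_pos Γ i
  have hn' : (2 : ℝ) ≤ n := by exact_mod_cast hc.hn
  have hmu := hc.hmu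
  have hlam := hc.hlam
  set a : ℝ := ((part A i).card : ℝ)
  set N : ℝ := ((Fintype.card V : ℕ) : ℝ)
  have h7 : lam * a ≤ mu * a + mu * N := by linarith
  have h8 : 2 * (n + 1) * mu * a < lam * a := mul_lt_mul_of_pos_right hlam h6
  have h9 : mu * N ≤ mu * ((n + 1) * a) := mul_le_mul_of_nonneg_left h5 hmu.le
  have h10 : 0 < mu * a := by positivity
  nlinarith

theorem matching (hvt : VertexTransitive Γ) {n : ℕ} {mu lam : ℝ} (hc : Cond n mu lam)
    (H : Hyp Γ n lam) {A B : V → Fin n} (hA : Good Γ mu A) (hB : Good Γ mu B) :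
    ∃ σ : Equiv.Perm (Fin n), 2 * ((n : ℝ) + 1) * (univ.filter (fun v => B v ≠ σ (A v))).card <
      Fintype.card V := by
  have hn' : (2 : ℝ) ≤ n := by exact_mod_cast hc.hn
  have hmu := hc.hmu
  have hlam := hc.hlam
  have hlampos : 0 < lam := by nlinarith
  have hrow : ∀ i, ∃ j, (part A i).card < 2 * (part A i ∩ part B j).card := by
    intro i
    by_contra hcon
    push Not at hcon
    exact not_all_small Γ hvt hc H hA hB i
      (fun j => piece_inter Γ hvt hc H hA hB i j (hcon j))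
  choose s hs using hrow
  have hsurj : Function.Surjective s := by
    intro j
    by_contra hcon
    push Not at hcon
    refine not_all_small Γ hvt hc H hB hA j (fun i => ?_)
    rw [inter_comm]
    apply piece_inter Γ hvt hc H hA hB i j
    -- `s i ≠ j`, and the piece in `s i` is more than half
    have h1 := hs i
    have h2 : (part A i ∩ part B j).card + (part A i ∩ part B (s i)).card ≤ (part A i).card := by
      rw [← card_union_of_disjoint]
      · apply card_le_card
        intro v hv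
        rw [mem_union, mem_inter, mem_inter] at hv
        tauto
      · rw [disjoint_left]
        intro v hv hv'
        rw [mem_inter, mem_part, mem_part] at hv hv'
        exact hcon i (hv'.2.symm.trans hv.2)
    omega
  have hbij : Function.Bijective s := Finite.injective_iff_bijective.1
    (Finite.injective_iff_surjective.2 hsurj)
  refine ⟨Equiv.ofBijective s hbij, ?_⟩
  set σ := Equiv.ofBijective s hbij with hσ
  have hσs : ∀ i, σ i = s i := fun i => rfl
  -- the column majority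
  have hcol : ∀ i, (part B (s i)).card < 2 * (part B (s i) ∩ part A i).card := by
    intro i
    by_contra hcon
    push Not at hcon
    have h1 := piece_inter Γ hvt hc H hB hA (s i) i hcon
    have h2 := bd_inter_le Γ (part B (s i)) (part A i)
    have h3 := hA.2 i
    have h4 := hB.2 (s i)
    have h5 := hs i
    rw [inter_comm] at h5
    have h5' : ((part A i).card : ℝ) < 2 * (part B (s i) ∩ part A i).card := by exact_mod_cast h5
    have h6 := size_bound Γ hvt hc.hn hc.hmu hc.hlam H hA i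
    have h7 := part_card_le Γ hvt hc H hB (s i)
    have hpos := hA.card_pos Γ i
    set a : ℝ := ((part A i).card : ℝ)
    set b : ℝ := ((part B (s i)).card : ℝ)
    set N : ℝ := ((Fintype.card V : ℕ) : ℝ)
    have h8 : lam * (a / 2) ≤ mu * a + mu * b := by nlinarith
    have h9 : (n + 1) * mu * a < mu * a + mu * b := by nlinarith
    have h10 : n * a < b := by
      have : mu * (n * a) < mu * b := by nlinarith
      exact lt_of_mul_lt_mul_left this hmu.le
    have h11 : (n + 1) * (n * a) < (n + 1) * b := mul_lt_mul_of_pos_left h10 (by positivity)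
    have h12 : n * N ≤ n * ((n + 1) * a) := mul_le_mul_of_nonneg_left h6 (by positivity)
    have hN : 0 ≤ N := by positivity
    nlinarith
  -- misfits
  have hmis : ∀ i, lam * ((part A i \ part B (s i)).card + (part B (s i) \ part A i).card) ≤
      mu * ((part A i).card + (part B (s i)).card) := by
    intro i
    have h1 : 2 * (part A i \ part B (s i)).card ≤ (part A i).card := by
      have := card_sdiff_add_card_inter (part A i) (part B (s i))
      have := hs i
      omega
    have h2 : 2 * (part B (s i) \ part A i).card ≤ (part B (s i)).card := by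
      have := card_sdiff_add_card_inter (part B (s i)) (part A i)
      have := hcol i
      omega
    have h3 := piece_sdiff Γ hvt hc H hA hB i (s i) h1
    have h4 := piece_sdiff Γ hvt hc H hB hA (s i) i h2
    have h5 := bd_sdiff_add_le Γ (part A i) (part B (s i))
    have h6 := hA.2 i
    have h7 := hB.2 (s i)
    linarith
  have hd1 : ∑ i, ((part A i \ part B (s i)).card : ℝ) =
      (univ.filter (fun v => B v ≠ σ (A v))).card := by
    rw [← card_inter_sum (univ.filter (fun v => B v ≠ σ (A v))) A]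
    refine sum_congr rfl fun i _ => ?_
    congr 2
    ext v
    rw [mem_sdiff, mem_inter, mem_filter, mem_part, mem_part]
    constructor
    · rintro ⟨h1, h2⟩
      refine ⟨⟨mem_univ _, ?_⟩, h1⟩
      rw [h1]
      exact h2
    · rintro ⟨⟨-, h1⟩, h2⟩
      rw [h2] at h1
      exact ⟨h2, h1⟩
  have hd2 : ∑ i, ((part B (s i) \ part A i).card : ℝ) =
      (univ.filter (fun v => B v ≠ σ (A v))).card := by
    rw [← card_inter_sum (univ.filter (fun v => B v ≠ σ (A v))) B, ← Equiv.sum_comp σ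
      (fun j => ((univ.filter (fun v => B v ≠ σ (A v)) ∩ part B j).card : ℝ))]
    refine sum_congr rfl fun i _ => ?_
    congr 2
    ext v
    rw [mem_sdiff, mem_inter, mem_filter, mem_part, mem_part, mem_part, ← hσs]
    constructor
    · rintro ⟨h1, h2⟩
      refine ⟨⟨mem_univ _, ?_⟩, h1⟩
      rw [h1]
      exact fun h => h2 (σ.injective h).symm
    · rintro ⟨⟨-, h1⟩, h2⟩
      refine ⟨h2, ?_⟩
      rintro rfl
      exact h1 h2
  have hfin : lam * (2 * ((univ.filter (fun v => B v ≠ σ (A v))).card : ℝ)) ≤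
      mu * (2 * Fintype.card V) := by
    have h1 : ∑ i, lam * (((part A i \ part B (s i)).card : ℝ) + (part B (s i) \ part A i).card) ≤
        ∑ i, mu * (((part A i).card : ℝ) + (part B (s i)).card) := sum_le_sum fun i _ => hmis i
    have h2 : ∑ i, ((part B (s i)).card : ℝ) = Fintype.card V := by
      have h3 := Equiv.sum_comp σ (fun j => ((part B j).card : ℝ))
      rw [card_part_sum B] at h3
      exact h3
    rw [← mul_sum, ← mul_sum, sum_add_distrib, sum_add_distrib, hd1, hd2, card_part_sum A,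
      h2] at h1
    linarith
  set d : ℝ := ((univ.filter (fun v => B v ≠ σ (A v))).card : ℝ) with hd
  have hd0 : 0 ≤ d := by positivity
  have hN : 0 < (Fintype.card V : ℝ) := by
    have h1 := hA.card_pos Γ ⟨0, by have := hc.hn; omega⟩
    have h2 : ((part A ⟨0, by have := hc.hn; omega⟩).card : ℝ) ≤ Fintype.card V := by
      exact_mod_cast card_le_univ _
    linarith
  rcases eq_or_lt_of_le hd0 with h0 | h0
  · rw [← h0, mul_zero]
    exact hN
  · have h1 : 2 * (n + 1) * mu * d < lam * d := mul_lt_mul_of_pos_right hlam h0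
    have h2 : mu * (2 * (n + 1) * d) < mu * Fintype.card V := by nlinarith
    exact lt_of_mul_lt_mul_left h2 hmu.le

theorem part_comp {n : ℕ} (A : V → Fin n) (g : Γ ≃g Γ) (i : Fin n) :
    part (fun v => A (g v)) i = (part A i).image (g⁻¹ : Γ ≃g Γ) := by
  ext v
  rw [mem_part, mem_image]
  constructor
  · intro h
    exact ⟨g v, mem_part.2 h, RelIso.inv_apply_self g v⟩
  · rintro ⟨a, ha, rfl⟩
    rw [RelIso.apply_inv_self]
    exact mem_part.1 ha

theorem Good.comp {n : ℕ} {mu : ℝ} {A : V → Fin n} (hA : Good Γ mu A) (g : Γ ≃g Γ) :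
    Good Γ mu (fun v => A (g v)) := by
  refine ⟨fun i => ?_, fun i => ?_⟩
  · obtain ⟨v, hv⟩ := hA.1 i
    refine ⟨g⁻¹ v, ?_⟩
    simp only [RelIso.apply_inv_self]
    exact hv
  · rw [part_comp, bd_image, card_image_of_injective _ (g⁻¹ : Γ ≃g Γ).injective]
    exact hA.2 i

theorem perm_unique (hvt : VertexTransitive Γ) {n : ℕ} {mu lam : ℝ} (hc : Cond n mu lam)
    (H : Hyp Γ n lam) {A : V → Fin n} (hA : Good Γ mu A) (σ τ : Equiv.Perm (Fin n))
    (h : ((n : ℝ) + 1) * (univ.filter (fun v => σ (A v) ≠ τ (A v))).card < 2 * Fintype.card V) :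
    σ = τ := by
  by_contra hne
  obtain ⟨i, hi⟩ : ∃ i, σ i ≠ τ i := by
    by_contra hcon
    push Not at hcon
    exact hne (Equiv.ext hcon)
  set k := τ.symm (σ i) with hk
  have hτk : τ k = σ i := τ.apply_symm_apply _
  have hki : k ≠ i := by
    intro h
    rw [h] at hτk
    exact hi hτk.symm
  have hk2 : σ k ≠ τ k := by
    rw [hτk]
    exact fun h => hki (σ.injective h)
  have h1 : (part A i).card + (part A k).card ≤
      (univ.filter (fun v => σ (A v) ≠ τ (A v))).card := by
    rw [← card_union_of_disjoint]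
    · apply card_le_card
      intro v hv
      rw [mem_union, mem_part, mem_part] at hv
      rw [mem_filter]
      refine ⟨mem_univ _, ?_⟩
      rcases hv with hv | hv
      · rw [hv]; exact hi
      · rw [hv]; exact hk2
    · rw [disjoint_left]
      intro v hv hv'
      rw [mem_part] at hv hv'
      exact hki (hv'.symm.trans hv)
  have h2 := size_bound Γ hvt hc.hn hc.hmu hc.hlam H hA i
  have h3 := size_bound Γ hvt hc.hn hc.hmu hc.hlam H hA k
  have h4 : ((part A i).card : ℝ) + (part A k).card ≤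
      (univ.filter (fun v => σ (A v) ≠ τ (A v))).card := by exact_mod_cast h1
  have h5 := mul_le_mul_of_nonneg_left h4 (show (0 : ℝ) ≤ n + 1 by positivity)
  linarith

theorem card_pos_of_good {n : ℕ} {mu : ℝ} (hn : 2 ≤ n) {A : V → Fin n} (hA : Good Γ mu A) :
    0 < (Fintype.card V : ℝ) := by
  have h1 := hA.card_pos Γ ⟨0, by omega⟩
  have h2 : ((part A ⟨0, by omega⟩).card : ℝ) ≤ Fintype.card V := by
    exact_mod_cast card_le_univ _
  linarith

/-- disagreement count between `A ∘ g` and `σ ∘ A` -/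
noncomputable def dis {n : ℕ} (A : V → Fin n) (g : Γ ≃g Γ) (σ : Equiv.Perm (Fin n)) : ℝ :=
  (univ.filter (fun v => A (g v) ≠ σ (A v))).card

theorem hom (hvt : VertexTransitive Γ) {n : ℕ} {mu lam : ℝ} (hc : Cond n mu lam)
    (H : Hyp Γ n lam) {A : V → Fin n} (hA : Good Γ mu A) (π : (Γ ≃g Γ) → Equiv.Perm (Fin n))
    (hπ : ∀ g, 2 * ((n : ℝ) + 1) * dis Γ A g (π g) < Fintype.card V) (g h : Γ ≃g Γ) :
    π (g * h) = π g * π h := by
  apply perm_unique Γ hvt hc H hA
  have h1 : univ.filter (fun v => π (g * h) (A v) ≠ (π g * π h) (A v)) ⊆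
      univ.filter (fun v => A ((g * h) v) ≠ π (g * h) (A v)) ∪
      (univ.filter (fun v => A (g v) ≠ π g (A v))).image (h⁻¹ : Γ ≃g Γ) ∪
      univ.filter (fun v => A (h v) ≠ π h (A v)) := by
    intro v hv
    rw [mem_filter] at hv
    rw [mem_union, mem_union, mem_filter, mem_filter, mem_image]
    by_contra hcon
    push Not at hcon
    obtain ⟨⟨h2, h3⟩, h4⟩ := hcon
    have h2' := h2 (mem_univ _)
    have h4' := h4 (mem_univ _)
    have h5 : A (g (h v)) = π g (A (h v)) := by
      by_contra h6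
      exact h3 (h v) (mem_filter.2 ⟨mem_univ _, h6⟩) (RelIso.inv_apply_self h v)
    apply hv.2
    rw [← h2', RelIso.mul_apply, h5, h4', Equiv.Perm.mul_apply]
  have h2 := card_le_card h1
  have h3 := (h2.trans (card_union_le _ _)).trans (Nat.add_le_add_right (card_union_le _ _) _)
  rw [card_image_of_injective _ (h⁻¹ : Γ ≃g Γ).injective] at h3
  have h4 : ((univ.filter (fun v => π (g * h) (A v) ≠ (π g * π h) (A v))).card : ℝ) ≤
      dis Γ A (g * h) (π (g * h)) + dis Γ A g (π g) + dis Γ A h (π h) := by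
    unfold dis
    exact_mod_cast h3
  have h5 := hπ (g * h)
  have h6 := hπ g
  have h7 := hπ h
  have hN := card_pos_of_good Γ hc.hn hA
  have h8 := mul_le_mul_of_nonneg_left h4 (show (0 : ℝ) ≤ n + 1 by positivity)
  linarith

open Classical in
/-- number of `g` with `A (g v) = π g i` -/
noncomputable def cc {n : ℕ} (A : V → Fin n) (π : (Γ ≃g Γ) → Equiv.Perm (Fin n)) (i : Fin n)
    (v : V) : ℝ := ∑ g : Γ ≃g Γ, if A (g v) = π g i then 1 else 0

theorem cc_equiv {n : ℕ} {A : V → Fin n} {π : (Γ ≃g Γ) → Equiv.Perm (Fin n)}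
    (hπ : ∀ g h, π (g * h) = π g * π h) (h : Γ ≃g Γ) (i : Fin n) (v : V) :
    cc Γ A π (π h i) (h v) = cc Γ A π i v := by
  classical
  unfold cc
  rw [← Equiv.sum_comp (Equiv.mulRight h) (fun g => if A (g v) = π g i then (1 : ℝ) else 0)]
  refine sum_congr rfl fun g _ => ?_
  rw [Equiv.coe_mulRight, RelIso.mul_apply, hπ, Equiv.Perm.mul_apply]

theorem cc_add {n : ℕ} {A : V → Fin n} {π : (Γ ≃g Γ) → Equiv.Perm (Fin n)} {i j : Fin n}
    (hij : i ≠ j) (v : V) : cc Γ A π i v + cc Γ A π j v ≤ Fintype.card (Γ ≃g Γ) := by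
  classical
  unfold cc
  rw [← sum_add_distrib]
  calc _ ≤ ∑ _g : Γ ≃g Γ, (1 : ℝ) := by
        refine sum_le_sum fun g _ => ?_
        by_cases h1 : A (g v) = π g i
        · have h2 : ¬ A (g v) = π g j := by
            rw [h1]
            exact fun h => hij ((π g).injective h)
          rw [if_pos h1, if_neg h2]
          norm_num
        · rw [if_neg h1]
          split_ifs <;> norm_num
    _ = _ := by rw [sum_const, card_univ, nsmul_eq_mul, mul_one]

open Classical in
/-- number of neighbours of `v` in other parts -/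
noncomputable def bb {n : ℕ} (L : V → Fin n) (v : V) : ℝ :=
  ∑ w, if Γ.Adj v w ∧ L v ≠ L w then 1 else 0

theorem bd_part {n : ℕ} (L : V → Fin n) (i : Fin n) :
    (bd Γ (part L i) : ℝ) = ∑ v ∈ part L i, bb Γ L v := by
  classical
  unfold bd bb
  rw [← Finset.sum_boole, Fintype.sum_prod_type]
  have h1 : part L i = univ.filter (fun v => L v = i) := rfl
  conv_rhs => rw [h1, Finset.sum_filter]
  refine sum_congr rfl fun v _ => ?_
  by_cases hv : L v = i
  · rw [if_pos hv]
    refine sum_congr rfl fun w _ => ?_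
    simp only [mem_part, hv, true_and]
    congr 1
    simp only [Ne, eq_comm]
  · rw [if_neg hv]
    refine Finset.sum_eq_zero fun w _ => ?_
    simp [mem_part, hv]

/-- Existence of an equivariant partition close to `A`. -/
theorem exists_equivariant (hvt : VertexTransitive Γ) {n : ℕ} {mu lam : ℝ} (hc : Cond n mu lam)
    (H : Hyp Γ n lam) {A : V → Fin n} (hA : Good Γ mu A) :
    ∃ (π : (Γ ≃g Γ) → Equiv.Perm (Fin n)) (L : V → Fin n),
      (∀ g v, L (g v) = π g (L v)) ∧
      (∀ v, 2 * ((n : ℝ) + 1) * (Fintype.card (Γ ≃g Γ) - cc Γ A π (L v) v) <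
        Fintype.card (Γ ≃g Γ)) ∧
      (2 * (n : ℝ) + 1) * (univ.filter (fun v => L v ≠ A v)).card < Fintype.card V := by
  classical
  have hn' : (2 : ℝ) ≤ n := by exact_mod_cast hc.hn
  have hex : ∀ g : Γ ≃g Γ, ∃ σ : Equiv.Perm (Fin n),
      2 * ((n : ℝ) + 1) * dis Γ A g σ < Fintype.card V := by
    intro g
    exact matching Γ hvt hc H hA (hA.comp Γ g)
  choose π hπ using hex
  have hhom := hom Γ hvt hc H hA π hπ
  have hG : 0 < (Fintype.card (Γ ≃g Γ) : ℝ) := by
    have : Nonempty (Γ ≃g Γ) := ⟨1⟩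
    exact_mod_cast Fintype.card_pos
  have hN := card_pos_of_good Γ hc.hn hA
  -- total defect
  have hdef : ∑ v, ((Fintype.card (Γ ≃g Γ) : ℝ) - cc Γ A π (A v) v) = ∑ g, dis Γ A g (π g) := by
    have h1 : ∀ v, ((Fintype.card (Γ ≃g Γ) : ℝ) - cc Γ A π (A v) v) =
        ∑ g : Γ ≃g Γ, if A (g v) ≠ π g (A v) then 1 else 0 := by
      intro v
      unfold cc
      have h2 : (Fintype.card (Γ ≃g Γ) : ℝ) = ∑ _g : Γ ≃g Γ, (1 : ℝ) := by
        rw [sum_const, card_univ, nsmul_eq_mul, mul_one]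
      rw [h2, ← sum_sub_distrib]
      refine sum_congr rfl fun g _ => ?_
      by_cases h : A (g v) = π g (A v) <;> simp [h]
    simp_rw [h1]
    rw [sum_comm]
    refine sum_congr rfl fun g _ => ?_
    unfold dis
    rw [Finset.sum_boole]
  have hdef2 : 2 * ((n : ℝ) + 1) * ∑ v, ((Fintype.card (Γ ≃g Γ) : ℝ) - cc Γ A π (A v) v) <
      Fintype.card V * Fintype.card (Γ ≃g Γ) := by
    rw [hdef, mul_sum]
    calc ∑ g, 2 * ((n : ℝ) + 1) * dis Γ A g (π g) < ∑ _g : Γ ≃g Γ, (Fintype.card V : ℝ) := by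
          apply sum_lt_sum_of_nonempty
          · exact ⟨1, mem_univ _⟩
          · intro g _
            exact hπ g
      _ = _ := by rw [sum_const, card_univ, nsmul_eq_mul, mul_comm]
  obtain ⟨v0, hv0⟩ : ∃ v0, 2 * ((n : ℝ) + 1) * ((Fintype.card (Γ ≃g Γ) : ℝ) -
      cc Γ A π (A v0) v0) < Fintype.card (Γ ≃g Γ) := by
    by_contra hcon
    push Not at hcon
    have h1 : ∑ _v : V, (Fintype.card (Γ ≃g Γ) : ℝ) ≤ ∑ v, 2 * ((n : ℝ) + 1) *
        ((Fintype.card (Γ ≃g Γ) : ℝ) - cc Γ A π (A v) v) := sum_le_sum fun v _ => hcon v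
    rw [sum_const, card_univ, nsmul_eq_mul, ← mul_sum] at h1
    linarith
  have hall : ∀ v, ∃ i, 2 * ((n : ℝ) + 1) * ((Fintype.card (Γ ≃g Γ) : ℝ) - cc Γ A π i v) <
      Fintype.card (Γ ≃g Γ) := by
    intro v
    obtain ⟨h, rfl⟩ := hvt v0 v
    exact ⟨π h (A v0), by rw [cc_equiv Γ hhom]; exact hv0⟩
  choose L hL using hall
  have huniq : ∀ i j v, 2 * ((n : ℝ) + 1) * ((Fintype.card (Γ ≃g Γ) : ℝ) - cc Γ A π i v) <
      Fintype.card (Γ ≃g Γ) → 2 * ((n : ℝ) + 1) * ((Fintype.card (Γ ≃g Γ) : ℝ) - cc Γ A π j v) <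
      Fintype.card (Γ ≃g Γ) → i = j := by
    intro i j v h1 h2
    by_contra hne
    have h3 := cc_add Γ (A := A) (π := π) hne v
    nlinarith
  refine ⟨π, L, ?_, hL, ?_⟩
  · intro g v
    apply huniq _ _ (g v) (hL (g v))
    rw [cc_equiv Γ hhom]
    exact hL v
  · set Dd := univ.filter (fun v => L v ≠ A v) with hD
    have hnn : ∀ v, 0 ≤ (Fintype.card (Γ ≃g Γ) : ℝ) - cc Γ A π (A v) v := by
      intro v
      unfold cc
      have h2 : (Fintype.card (Γ ≃g Γ) : ℝ) = ∑ _g : Γ ≃g Γ, (1 : ℝ) := by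
        rw [sum_const, card_univ, nsmul_eq_mul, mul_one]
      rw [h2, ← sum_sub_distrib]
      refine sum_nonneg fun g _ => ?_
      split_ifs <;> norm_num
    have h1 : ∀ v ∈ Dd, (2 * (n : ℝ) + 1) * (Fintype.card (Γ ≃g Γ) : ℝ) ≤ 2 * ((n : ℝ) + 1) *
        ((Fintype.card (Γ ≃g Γ) : ℝ) - cc Γ A π (A v) v) := by
      intro v hv
      rw [hD, mem_filter] at hv
      have h2 := cc_add Γ (A := A) (π := π) hv.2 v
      have h3 := hL v
      nlinarith
    have h2 : (Dd.card : ℝ) * ((2 * (n : ℝ) + 1) * (Fintype.card (Γ ≃g Γ) : ℝ)) ≤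
        Fintype.card V * Fintype.card (Γ ≃g Γ) := by
      rw [← nsmul_eq_mul, ← sum_const]
      refine (sum_le_sum h1).trans (le_trans ?_ hdef2.le)
      rw [← mul_sum]
      apply mul_le_mul_of_nonneg_left _ (by positivity)
      exact sum_le_sum_of_subset_of_nonneg (subset_univ _) (fun v _ _ => hnn v)
    have h3 : (Dd.card : ℝ) * ((2 * (n : ℝ) + 1) * (Fintype.card (Γ ≃g Γ) : ℝ)) <
        Fintype.card V * Fintype.card (Γ ≃g Γ) := by
      rw [← nsmul_eq_mul, ← sum_const]
      refine lt_of_le_of_lt ((sum_le_sum h1).trans ?_) hdef2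
      rw [← mul_sum]
      apply mul_le_mul_of_nonneg_left _ (by positivity)
      exact sum_le_sum_of_subset_of_nonneg (subset_univ _) (fun v _ _ => hnn v)
    have h4 : ((2 * (n : ℝ) + 1) * Dd.card) * (Fintype.card (Γ ≃g Γ) : ℝ) <
        Fintype.card V * Fintype.card (Γ ≃g Γ) := by
      calc _ = (Dd.card : ℝ) * ((2 * (n : ℝ) + 1) * (Fintype.card (Γ ≃g Γ) : ℝ)) := by ring
        _ < _ := h3
    exact lt_of_mul_lt_mul_right h4 hG.le

theorem bb_equiv {n : ℕ} {L : V → Fin n} {π : (Γ ≃g Γ) → Equiv.Perm (Fin n)}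
    (hL : ∀ g v, L (g v) = π g (L v)) (g : Γ ≃g Γ) (v : V) : bb Γ L (g v) = bb Γ L v := by
  classical
  unfold bb
  rw [← Equiv.sum_comp g.toEquiv (fun w => if Γ.Adj (g v) w ∧ L (g v) ≠ L w then (1 : ℝ) else 0)]
  refine sum_congr rfl fun w _ => ?_
  have h1 : (Γ.Adj (g v) (g.toEquiv w) ∧ L (g v) ≠ L (g.toEquiv w)) ↔
      (Γ.Adj v w ∧ L v ≠ L w) := by
    have h2 : Γ.Adj (g v) (g.toEquiv w) ↔ Γ.Adj v w := g.map_adj_iff
    have h3 : L (g.toEquiv w) = π g (L w) := hL g w
    rw [h2, h3, hL, Ne, Ne, (π g).injective.eq_iff]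
  simp only [h1]

/-- the crossing bound (averaging over the group) -/
theorem beta_bound {n : ℕ} {mu : ℝ} (hn : 2 ≤ n) {A : V → Fin n} (hA : Good Γ mu A)
    {π : (Γ ≃g Γ) → Equiv.Perm (Fin n)} {L : V → Fin n} {β : ℝ} (hβ : ∀ v, bb Γ L v = β)
    (hL : ∀ v, 2 * ((n : ℝ) + 1) * (Fintype.card (Γ ≃g Γ) - cc Γ A π (L v) v) <
        Fintype.card (Γ ≃g Γ)) : n * β ≤ (n + 1) * mu := by
  classical
  have hG : 0 < (Fintype.card (Γ ≃g Γ) : ℝ) := by
    have : Nonempty (Γ ≃g Γ) := ⟨1⟩
    exact_mod_cast Fintype.card_pos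
  have hN := card_pos_of_good Γ hn hA
  set G : ℝ := ((Fintype.card (Γ ≃g Γ) : ℕ) : ℝ) with hGd
  set N : ℝ := ((Fintype.card V : ℕ) : ℝ) with hNd
  have h1 : ∑ g : Γ ≃g Γ, ∑ p : V × V,
      (if Γ.Adj p.1 p.2 ∧ A (g p.1) ≠ A (g p.2) then (1 : ℝ) else 0) ≤ G * (mu * N) := by
    have h2 : ∀ g : Γ ≃g Γ, ∑ p : V × V,
        (if Γ.Adj p.1 p.2 ∧ A (g p.1) ≠ A (g p.2) then (1 : ℝ) else 0) ≤ mu * N := by
      intro g
      have h3 := sum_bd_le Γ (hA.comp Γ g)
      rw [sum_bd] at h3
      convert h3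
    calc _ ≤ ∑ _g : Γ ≃g Γ, mu * N := sum_le_sum fun g _ => h2 g
      _ = _ := by rw [sum_const, card_univ, nsmul_eq_mul]
  have h2 : ∑ p : V × V, (if Γ.Adj p.1 p.2 ∧ L p.1 ≠ L p.2 then (1 : ℝ) else 0) = N * β := by
    rw [Fintype.sum_prod_type]
    have h3 : ∀ v, (∑ w, if Γ.Adj v w ∧ L v ≠ L w then (1 : ℝ) else 0) = β := by
      intro v
      rw [← hβ v]
      rfl
    simp only [h3]
    rw [sum_const, card_univ, nsmul_eq_mul]
  have h3 : ∀ p : V × V, n * G * (if Γ.Adj p.1 p.2 ∧ L p.1 ≠ L p.2 then (1 : ℝ) else 0) ≤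
      (n + 1) * ∑ g : Γ ≃g Γ, (if Γ.Adj p.1 p.2 ∧ A (g p.1) ≠ A (g p.2) then (1 : ℝ) else 0) := by
    intro p
    by_cases hp : Γ.Adj p.1 p.2 ∧ L p.1 ≠ L p.2
    · rw [if_pos hp, mul_one]
      have h4 : cc Γ A π (L p.1) p.1 + cc Γ A π (L p.2) p.2 - G ≤
          ∑ g : Γ ≃g Γ, (if Γ.Adj p.1 p.2 ∧ A (g p.1) ≠ A (g p.2) then (1 : ℝ) else 0) := by
        have h5 : G = ∑ _g : Γ ≃g Γ, (1 : ℝ) := by
          rw [sum_const, card_univ, nsmul_eq_mul, mul_one]
        unfold cc
        rw [h5, ← sum_add_distrib, ← sum_sub_distrib]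
        refine sum_le_sum fun g _ => ?_
        by_cases h6 : A (g p.1) = π g (L p.1)
        · by_cases h7 : A (g p.2) = π g (L p.2)
          · rw [if_pos h6, if_pos h7, if_pos]
            · norm_num
            · refine ⟨hp.1, ?_⟩
              rw [h6, h7]
              exact fun h => hp.2 ((π g).injective h)
          · rw [if_neg h7]
            split_ifs <;> norm_num
        · rw [if_neg h6]
          split_ifs <;> norm_num
      have h5 := hL p.1
      have h6 := hL p.2
      have h7 := mul_le_mul_of_nonneg_left h4 (show (0 : ℝ) ≤ n + 1 by positivity)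
      nlinarith
    · rw [if_neg hp, mul_zero]
      apply mul_nonneg (by positivity)
      exact sum_nonneg fun g _ => by split_ifs <;> norm_num
  have h4 : n * G * (N * β) ≤ (n + 1) * (G * (mu * N)) := by
    rw [← h2, mul_sum]
    refine (sum_le_sum fun p _ => h3 p).trans ?_
    rw [← mul_sum]
    apply mul_le_mul_of_nonneg_left _ (by positivity)
    rw [sum_comm]
    exact h1
  have h5 : (G * N) * (n * β) ≤ (G * N) * ((n + 1) * mu) := by nlinarith
  exact le_of_mul_le_mul_left h5 (by positivity)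

theorem bd_sub_part {n : ℕ} {L : V → Fin n} {β : ℝ} (hβ : ∀ v, bb Γ L v = β) (i : Fin n)
    {X : Finset V} (hX : X ⊆ part L i) :
    (bd Γ X : ℝ) = β * X.card + e Γ X (part L i \ X) := by
  classical
  unfold bd e
  have h1 : β * (X.card : ℝ) = ∑ v ∈ X, bb Γ L v := by
    rw [sum_congr rfl (fun v _ => hβ v), sum_const, nsmul_eq_mul, mul_comm]
  have h2 : ∑ v ∈ X, bb Γ L v = ∑ p : V × V,
      if Γ.Adj p.1 p.2 ∧ p.1 ∈ X ∧ L p.1 ≠ L p.2 then 1 else 0 := by
    rw [Fintype.sum_prod_type]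
    have h3 : X = univ.filter (fun v => v ∈ X) := by ext; simp
    conv_lhs => rw [h3, Finset.sum_filter]
    refine sum_congr rfl fun v _ => ?_
    unfold bb
    by_cases hv : v ∈ X
    · simp [hv]
    · simp [hv]
  rw [h1, h2, ← Finset.sum_boole, ← sum_add_distrib]
  refine sum_congr rfl fun p _ => ?_
  by_cases ha : Γ.Adj p.1 p.2 <;> by_cases h1 : p.1 ∈ X <;> by_cases h2 : p.2 ∈ X
  · have h3 := mem_part.1 (hX h1)
    have h4 := mem_part.1 (hX h2)
    simp [ha, h1, h2, h3, h4]
  · have h3 := mem_part.1 (hX h1)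
    by_cases h4 : L p.2 = i
    · simp [ha, h1, h2, h3, h4, mem_part]
    · simp [ha, h1, h2, h3, h4, mem_part, Ne.symm h4]
  · simp [ha, h1]
  · simp [ha, h1]
  · simp [ha]
  · simp [ha]
  · simp [ha]
  · simp [ha]

theorem e_symm (X Y : Finset V) : e Γ X Y = e Γ Y X := by
  classical
  unfold e
  rw [← Equiv.sum_comp (Equiv.prodComm V V)]
  refine sum_congr rfl fun p _ => ?_
  simp only [Equiv.prodComm_apply, Prod.fst_swap, Prod.snd_swap, Γ.adj_comm p.2 p.1]
  congr 1
  simp only [eq_iff_iff]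
  tauto

theorem core (hvt : VertexTransitive Γ) {n : ℕ} {mu lam : ℝ} (hc : Cond n mu lam)
    (H : Hyp Γ n lam) {A : V → Fin n} (hA : Good Γ mu A)
    (hmin : ∀ f : V → Fin n, Function.Surjective f →
      ∃ k, mu * (part f k).card ≤ bd Γ (part f k)) :
    ∃ π : (Γ ≃g Γ) → Equiv.Perm (Fin n), ∀ g v, A (g v) = π g (A v) := by
  classical
  have hn' : (2 : ℝ) ≤ n := by exact_mod_cast hc.hn
  have hmu := hc.hmu
  have hlam := hc.hlam
  obtain ⟨π, L, hLπ, hLc, hLD⟩ := exists_equivariant Γ hvt hc H hA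
  set Dd := univ.filter (fun v => L v ≠ A v) with hDd
  have hN := card_pos_of_good Γ hc.hn hA
  set N : ℝ := ((Fintype.card V : ℕ) : ℝ) with hNd
  -- `L` is surjective
  have hLs : Function.Surjective L := by
    intro i
    by_contra hcon
    push Not at hcon
    have h1 : part A i ⊆ Dd := by
      intro v hv
      rw [hDd, mem_filter]
      rw [mem_part] at hv
      exact ⟨mem_univ _, by rw [hv]; exact hcon v⟩
    have h2 : ((part A i).card : ℝ) ≤ Dd.card := by exact_mod_cast card_le_card h1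
    have h3 := size_bound Γ hvt hc.hn hmu hlam H hA i
    have h4 := hA.card_pos Γ i
    nlinarith
  -- the constant `β`
  obtain ⟨v0, -⟩ := hA.1 ⟨0, by have := hc.hn; omega⟩
  have hβ : ∀ v, bb Γ L v = bb Γ L v0 := by
    intro v
    obtain ⟨g, rfl⟩ := hvt v0 v
    exact bb_equiv Γ hLπ g v0
  set β := bb Γ L v0 with hβd
  have hβ0 : 0 ≤ β := by
    rw [hβd]
    unfold bb
    exact sum_nonneg fun w _ => by split_ifs <;> norm_num
  have hβ1 := beta_bound Γ hc.hn hA hβ hLc
  have hβ2 : 2 * β < lam := by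
    have : 2 * β ≤ n * β := mul_le_mul_of_nonneg_right hn' hβ0
    nlinarith
  have hLpos : ∀ i, 0 < ((part L i).card : ℝ) := by
    intro i
    obtain ⟨v, hv⟩ := hLs i
    have : 0 < (part L i).card := Finset.card_pos.2 ⟨v, mem_part.2 hv⟩
    exact_mod_cast this
  have hbdL : ∀ i, (bd Γ (part L i) : ℝ) = β * (part L i).card := by
    intro i
    rw [bd_part, sum_congr rfl (fun v _ => hβ v), sum_const, nsmul_eq_mul, mul_comm]
  have hmuβ : mu ≤ β := by
    obtain ⟨k, hk⟩ := hmin L hLs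
    rw [hbdL] at hk
    exact le_of_mul_le_mul_right hk (hLpos k)
  -- block sizes
  have hsize : ∀ i, n * ((part L i).card : ℝ) = N := by
    intro i
    have h1 : ∀ j, ((part L j).card : ℝ) = (part L i).card := by
      intro j
      obtain ⟨v, hv⟩ := hLs i
      obtain ⟨w, hw⟩ := hLs j
      obtain ⟨g, hg⟩ := hvt v w
      have h2 : π g i = j := by rw [← hv, ← hLπ, hg, hw]
      have h3 : part L j = (part L i).image g := by
        ext z
        rw [mem_part, mem_image]
        constructor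
        · intro hz
          refine ⟨g⁻¹ z, ?_, RelIso.apply_inv_self g z⟩
          rw [mem_part]
          apply (π g).injective
          rw [← hLπ, RelIso.apply_inv_self, hz, h2]
        · rintro ⟨a, ha, rfl⟩
          rw [mem_part] at ha
          rw [hLπ, ha, h2]
      rw [h3, card_image_of_injective _ g.injective]
    have h2 := card_part_sum L
    rw [sum_congr rfl (fun j _ => h1 j), sum_const, card_univ, Fintype.card_fin,
      nsmul_eq_mul] at h2
    exact h2
  -- the misfits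
  have hWi : ∀ i, (lam - β) * ((part L i ∩ Dd).card : ℝ) ≤
      e Γ (part L i ∩ Dd) (part L i \ (part L i ∩ Dd)) := by
    intro i
    have h1 : ((part L i ∩ Dd).card : ℝ) ≤ Dd.card := by
      exact_mod_cast card_le_card inter_subset_right
    have h2 : 2 * ((part L i ∩ Dd).card : ℝ) ≤ (part L i).card := by
      have h3 := hsize i
      have h4 := hLpos i
      have h5 : (2 * (n : ℝ) + 1) * ((part L i ∩ Dd).card : ℝ) ≤ n * (part L i).card := by
        have : (2 * (n : ℝ) + 1) * ((part L i ∩ Dd).card : ℝ) ≤ (2 * (n : ℝ) + 1) * Dd.card :=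
          mul_le_mul_of_nonneg_left h1 (by positivity)
        linarith
      have h6 : (0 : ℝ) ≤ ((part L i ∩ Dd).card : ℝ) := by positivity
      have h7 : n * (2 * ((part L i ∩ Dd).card : ℝ)) ≤ n * (part L i).card := by nlinarith
      exact le_of_mul_le_mul_left h7 (by linarith)
    have h3 : ((part L i \ (part L i ∩ Dd)).card : ℝ) = (part L i).card -
        (part L i ∩ Dd).card := by
      rw [card_sdiff_of_subset inter_subset_left, Nat.cast_sub (card_le_card inter_subset_left)]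
    have h4 := bd_sub_part Γ hβ i (X := part L i ∩ Dd) inter_subset_left
    have h5 := bd_sub_part Γ hβ i (X := part L i \ (part L i ∩ Dd)) sdiff_subset
    have h6 : part L i \ (part L i \ (part L i ∩ Dd)) = part L i ∩ Dd := by
      ext z
      simp only [mem_sdiff, mem_inter]
      tauto
    rw [h6, e_symm] at h5
    rcases H L (part L i ∩ Dd) with h7 | ⟨k, hk⟩
    · rw [h4] at h7
      linarith
    · by_cases hki : k = i
      · subst hki
        rw [h5, h3] at hk
        have h8 : (lam - β) * ((part L k ∩ Dd).card : ℝ) ≤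
            (lam - β) * ((part L k).card - (part L k ∩ Dd).card) := by
          apply mul_le_mul_of_nonneg_left _ (by linarith)
          linarith
        linarith
      · exfalso
        have h8 : part L k \ (part L i ∩ Dd) = part L k := by
          rw [Finset.sdiff_eq_self_iff_disjoint, disjoint_left]
          intro v hv hv'
          rw [mem_inter, mem_part] at hv'
          rw [mem_part] at hv
          exact hki (hv.symm.trans hv'.1)
        rw [h8, hbdL] at hk
        have h9 := hLpos k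
        have h10 : β * ((part L k).card : ℝ) < lam * (part L k).card :=
          mul_lt_mul_of_pos_right (by linarith) h9
        linarith
  have hsumW : ∑ i, ((part L i ∩ Dd).card : ℝ) = Dd.card := by
    rw [← card_inter_sum Dd L]
    refine sum_congr rfl fun i _ => ?_
    rw [inter_comm]
  have hsume : ∑ i, e Γ (part L i ∩ Dd) (part L i \ (part L i ∩ Dd)) =
      ∑ p : V × V, if Γ.Adj p.1 p.2 ∧ L p.1 = L p.2 ∧ p.1 ∈ Dd ∧ p.2 ∉ Dd then 1 else 0 := by
    unfold e
    rw [sum_comm]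
    refine sum_congr rfl fun p _ => ?_
    rw [Finset.sum_eq_single (L p.1)]
    · by_cases ha : Γ.Adj p.1 p.2 <;> by_cases h1 : L p.1 = L p.2 <;> by_cases h2 : p.1 ∈ Dd <;>
        by_cases h3 : p.2 ∈ Dd <;>
        simp [ha, h1, h2, h3, mem_part, mem_inter, mem_sdiff, Ne.symm]
    · intro i _ hi
      simp [mem_part, mem_inter, Ne.symm hi]
    · simp
  have hsume' : ∑ i, e Γ (part L i ∩ Dd) (part L i \ (part L i ∩ Dd)) =
      ∑ p : V × V, if Γ.Adj p.1 p.2 ∧ L p.1 = L p.2 ∧ p.2 ∈ Dd ∧ p.1 ∉ Dd then 1 else 0 := by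
    rw [hsume, ← Equiv.sum_comp (Equiv.prodComm V V)]
    refine sum_congr rfl fun p _ => ?_
    simp only [Equiv.prodComm_apply, Prod.fst_swap, Prod.snd_swap, Γ.adj_comm p.2 p.1,
      eq_comm (a := L p.2)]
  -- crossing sums
  have hX1 : ∑ p : V × V, (if Γ.Adj p.1 p.2 ∧ L p.1 ≠ L p.2 then (1 : ℝ) else 0) = N * β := by
    rw [Fintype.sum_prod_type]
    have h3 : ∀ v, (∑ w, if Γ.Adj v w ∧ L v ≠ L w then (1 : ℝ) else 0) = β := by
      intro v
      rw [← hβ v]
      rfl
    simp only [h3]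
    rw [sum_const, card_univ, nsmul_eq_mul]
  have hX2 : ∑ p : V × V, (if Γ.Adj p.1 p.2 ∧ L p.1 ≠ L p.2 ∧ p.1 ∈ Dd then (1 : ℝ) else 0) =
      β * Dd.card := by
    rw [Fintype.sum_prod_type]
    have h3 : ∀ v, (∑ w, if Γ.Adj v w ∧ L v ≠ L w ∧ v ∈ Dd then (1 : ℝ) else 0) =
        if v ∈ Dd then β else 0 := by
      intro v
      by_cases hv : v ∈ Dd
      · rw [if_pos hv, ← hβ v]
        unfold bb
        simp [hv]
      · simp [hv]
    simp only [h3]
    rw [← Finset.sum_filter, sum_const, nsmul_eq_mul, Finset.filter_mem_eq_inter, univ_inter,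
      mul_comm]
  have hX3 : ∑ p : V × V, (if Γ.Adj p.1 p.2 ∧ L p.1 ≠ L p.2 ∧ p.2 ∈ Dd then (1 : ℝ) else 0) =
      β * Dd.card := by
    rw [← hX2, ← Equiv.sum_comp (Equiv.prodComm V V)]
    refine sum_congr rfl fun p _ => ?_
    simp only [Equiv.prodComm_apply, Prod.fst_swap, Prod.snd_swap, Γ.adj_comm p.2 p.1, Ne,
      eq_comm (a := L p.2)]
  have hXA := sum_bd_le Γ hA
  rw [sum_bd] at hXA
  have hpt : ∑ p : V × V, (if Γ.Adj p.1 p.2 ∧ L p.1 ≠ L p.2 then (1 : ℝ) else 0) +
      (∑ p : V × V, if Γ.Adj p.1 p.2 ∧ L p.1 = L p.2 ∧ p.1 ∈ Dd ∧ p.2 ∉ Dd then (1 : ℝ) else 0) +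
      (∑ p : V × V, if Γ.Adj p.1 p.2 ∧ L p.1 = L p.2 ∧ p.2 ∈ Dd ∧ p.1 ∉ Dd then (1 : ℝ) else 0) ≤
      (∑ p : V × V, if Γ.Adj p.1 p.2 ∧ A p.1 ≠ A p.2 then (1 : ℝ) else 0) +
      (∑ p : V × V, if Γ.Adj p.1 p.2 ∧ L p.1 ≠ L p.2 ∧ p.1 ∈ Dd then (1 : ℝ) else 0) +
      (∑ p : V × V, if Γ.Adj p.1 p.2 ∧ L p.1 ≠ L p.2 ∧ p.2 ∈ Dd then (1 : ℝ) else 0) := by
    rw [← sum_add_distrib, ← sum_add_distrib, ← sum_add_distrib, ← sum_add_distrib]
    refine sum_le_sum fun p _ => ?_
    by_cases ha : Γ.Adj p.1 p.2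
    swap
    · simp [ha]
    have hmem : ∀ v, v ∈ Dd ↔ L v ≠ A v := by
      intro v
      rw [hDd, mem_filter]
      simp
    by_cases h1 : L p.1 = L p.2 <;> by_cases h2 : p.1 ∈ Dd <;> by_cases h3 : p.2 ∈ Dd
    · simp only [ha, h1, h2, h3, ne_eq, not_true, not_false_iff, true_and, and_true, and_false,
        false_and, if_true, if_false]
      split_ifs <;> norm_num
    · have h4 : A p.1 ≠ A p.2 := by
        rw [hmem] at h2 h3
        push Not at h3
        rw [← h3, ← h1]
        exact fun h => h2 h.symm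
      simp [ha, h1, h2, h3, h4]
    · have h4 : A p.1 ≠ A p.2 := by
        rw [hmem] at h2 h3
        push Not at h2
        rw [← h2, h1]
        exact h3
      simp [ha, h1, h2, h3, h4]
    · simp only [ha, h1, h2, h3, ne_eq, not_true, not_false_iff, true_and, and_true, and_false,
        false_and, if_true, if_false]
      split_ifs <;> norm_num
    · simp only [ha, h1, h2, h3, ne_eq, not_true, not_false_iff, true_and, and_true, and_false,
        false_and, if_true, if_false]
      split_ifs <;> norm_num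
    · simp only [ha, h1, h2, h3, ne_eq, not_true, not_false_iff, true_and, and_true, and_false,
        false_and, if_true, if_false]
      split_ifs <;> norm_num
    · simp only [ha, h1, h2, h3, ne_eq, not_true, not_false_iff, true_and, and_true, and_false,
        false_and, if_true, if_false]
      split_ifs <;> norm_num
    · have h4 : A p.1 ≠ A p.2 := by
        rw [hmem] at h2 h3
        push Not at h2 h3
        rw [← h2, ← h3]
        exact h1
      simp [ha, h1, h2, h3, h4]
  have hD0 : Dd.card = 0 := by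
    rw [hX1, hX2, hX3, ← hsume, ← hsume'] at hpt
    have h1 : (lam - β) * (Dd.card : ℝ) ≤
        ∑ i, e Γ (part L i ∩ Dd) (part L i \ (part L i ∩ Dd)) := by
      rw [← hsumW, mul_sum]
      exact sum_le_sum fun i _ => hWi i
    have h2 : mu * N ≤ β * N := mul_le_mul_of_nonneg_right hmuβ hN.le
    have h3 : 2 * ((lam - 2 * β) * (Dd.card : ℝ)) ≤ 0 := by
      have hXA' : (∑ p : V × V, if Γ.Adj p.1 p.2 ∧ A p.1 ≠ A p.2 then (1 : ℝ) else 0) ≤
          mu * N := by
        convert hXA
      linarith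
    have h4 : (0 : ℝ) ≤ Dd.card := by positivity
    by_contra hne
    have h5 : (0 : ℝ) < Dd.card := by
      have : 0 < Dd.card := Nat.pos_of_ne_zero hne
      exact_mod_cast this
    have h6 : 0 < (lam - 2 * β) * (Dd.card : ℝ) := mul_pos (by linarith) h5
    linarith
  have hLA : ∀ v, L v = A v := by
    intro v
    by_contra hne
    have : v ∈ Dd := by rw [hDd, mem_filter]; exact ⟨mem_univ _, hne⟩
    rw [card_eq_zero] at hD0
    rw [hD0] at this
    simp at this
  exact ⟨π, fun g v => by rw [← hLA, ← hLA, hLπ]⟩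

/-! ### From the constants `h_n` to the hypotheses used above -/

theorem ratio_nonneg {n : ℕ} (f : V → Fin n) (i : Fin n) : 0 ≤ ratio Γ f i := by
  unfold ratio; positivity

theorem ratio_le_maxRatio {n : ℕ} (f : V → Fin n) (i : Fin n) : ratio Γ f i ≤ maxRatio Γ f :=
  le_ciSup (Set.finite_range (ratio Γ f)).bddAbove i

theorem maxRatio_attained {n : ℕ} (hn : 0 < n) (f : V → Fin n) :
    ∃ i, maxRatio Γ f = ratio Γ f i := by
  have : Nonempty (Fin n) := ⟨⟨0, hn⟩⟩
  obtain ⟨i, hi⟩ := exists_eq_ciSup_of_finite (f := ratio Γ f)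
  exact ⟨i, hi.symm⟩

theorem h_le {n : ℕ} (f : V → Fin n) (hf : Function.Surjective f) : h Γ n ≤ maxRatio Γ f := by
  apply csInf_le
  · refine ⟨0, ?_⟩
    rintro x ⟨f, -, rfl⟩
    exact Real.iSup_nonneg (ratio_nonneg Γ f)
  · exact ⟨f, hf, rfl⟩

theorem card_part_pos {n : ℕ} {f : V → Fin n} (hf : Function.Surjective f) (i : Fin n) :
    0 < ((part f i).card : ℝ) := by
  obtain ⟨v, hv⟩ := hf i
  have : 0 < (part f i).card := Finset.card_pos.2 ⟨v, mem_part.2 hv⟩
  exact_mod_cast this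

theorem h_spec {n : ℕ} (hn : 0 < n) (f : V → Fin n) (hf : Function.Surjective f) :
    ∃ k, h Γ n * (part f k).card ≤ bd Γ (part f k) := by
  obtain ⟨i, hi⟩ := maxRatio_attained Γ hn f
  refine ⟨i, ?_⟩
  have h1 := h_le Γ f hf
  rw [hi] at h1
  unfold ratio at h1
  rwa [le_div_iff₀ (card_part_pos hf i)] at h1

theorem hyp_h {n : ℕ} : Hyp Γ n (h Γ (n + 1)) := by
  intro A X
  let f : V → Fin (n + 1) := fun v => if v ∈ X then Fin.last n else (A v).castSucc
  have hlast : part f (Fin.last n) = X := by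
    ext v
    rw [mem_part]
    by_cases hv : v ∈ X
    · simp [f, hv]
    · simp only [f, if_neg hv, hv, iff_false]
      exact (Fin.castSucc_lt_last _).ne
  have hcast : ∀ k : Fin n, part f k.castSucc = part A k \ X := by
    intro k
    ext v
    rw [mem_part, mem_sdiff, mem_part]
    by_cases hv : v ∈ X
    · simp only [f, if_pos hv, hv, not_true, and_false, iff_false]
      exact (Fin.castSucc_lt_last _).ne'
    · simp only [f, if_neg hv, hv, not_false_iff, and_true, Fin.castSucc_inj]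
  have hex : ∃ i, h Γ (n + 1) * (part f i).card ≤ bd Γ (part f i) := by
    by_cases hf : Function.Surjective f
    · exact h_spec Γ (Nat.succ_pos n) f hf
    · unfold Function.Surjective at hf
      push Not at hf
      obtain ⟨i, hi⟩ := hf
      refine ⟨i, ?_⟩
      have : part f i = ∅ := by
        rw [eq_empty_iff_forall_notMem]
        intro v hv
        exact hi v (mem_part.1 hv)
      rw [this]
      simp
  obtain ⟨i, hi⟩ := hex
  induction i using Fin.lastCases with
  | last =>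
    rw [hlast] at hi
    exact Or.inl hi
  | cast k =>
    rw [hcast] at hi
    exact Or.inr ⟨k, hi⟩

theorem good_of_realizer {n : ℕ} {f : V → Fin n} (hf : IsRealizer Γ f) : Good Γ (h Γ n) f := by
  refine ⟨hf.1, fun i => ?_⟩
  have h1 := ratio_le_maxRatio Γ f i
  rw [hf.2] at h1
  unfold ratio at h1
  rwa [div_le_iff₀ (card_part_pos hf.1 i)] at h1

theorem h_pos (hconn : Γ.Connected) {n : ℕ} (hn : 2 ≤ n) {f : V → Fin n} (hf : IsRealizer Γ f) :
    0 < h Γ n := by
  classical
  obtain ⟨u, hu⟩ := hf.1 ⟨0, by omega⟩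
  obtain ⟨v, hv⟩ := hf.1 ⟨1, by omega⟩
  obtain ⟨p⟩ := hconn.preconnected u v
  obtain ⟨d, -, hd1, hd2⟩ := p.exists_boundary_dart {w | f w = ⟨0, by omega⟩} hu (by
    simp [hv])
  have h1 : 0 < bd Γ (part f ⟨0, by omega⟩) := by
    unfold bd
    rw [Finset.card_pos]
    refine ⟨(d.fst, d.snd), ?_⟩
    rw [mem_filter]
    refine ⟨mem_univ _, d.adj, ?_, ?_⟩
    · rw [mem_part]; exact hd1
    · rw [mem_part]; exact hd2
  have h2 := ratio_le_maxRatio Γ f ⟨0, by omega⟩
  rw [hf.2] at h2
  have h3 : 0 < ratio Γ f ⟨0, by omega⟩ := by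
    unfold ratio
    have h4 := card_part_pos hf.1 (⟨0, by omega⟩ : Fin n)
    have h5 : (0 : ℝ) < bd Γ (part f ⟨0, by omega⟩) := by exact_mod_cast h1
    positivity
  linarith

theorem exists_realizer {n : ℕ} (hn : 0 < n) (hcard : n ≤ Fintype.card V) :
    ∃ f : V → Fin n, IsRealizer Γ f := by
  have hne : {x | ∃ f : V → Fin n, Function.Surjective f ∧ x = maxRatio Γ f}.Nonempty := by
    have : Nonempty (Fin n) := ⟨⟨0, hn⟩⟩
    have h1 : Fintype.card (Fin n) ≤ Fintype.card V := by rwa [Fintype.card_fin]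
    obtain ⟨e⟩ := Function.Embedding.nonempty_of_card_le h1
    exact ⟨_, Function.invFun e, Function.invFun_surjective e.injective, rfl⟩
  have hfin : {x | ∃ f : V → Fin n, Function.Surjective f ∧ x = maxRatio Γ f}.Finite := by
    apply (Set.finite_range (fun f : V → Fin n => maxRatio Γ f)).subset
    rintro x ⟨f, -, rfl⟩
    exact ⟨f, rfl⟩
  obtain ⟨f, hf, hx⟩ := hne.csInf_mem hfin
  exact ⟨f, hf, hx.symm⟩

end main

/-- **Main theorem.** Let `n ≥ 2` and let `Γ` be a finite connected vertex-transitive graph with at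
least `n + 1` vertices and `h_{n+1}(Γ) > 2 (n + 1) h_n(Γ)`. Then realizers of `h_n(Γ)` exist, and
every realizer of `h_n(Γ)` is a system of imprimitivity for `Aut(Γ)`. -/
theorem result (n : ℕ) (hn : 2 ≤ n) {V : Type*} [Fintype V] [DecidableEq V] (Γ : SimpleGraph V)
    (hconn : Γ.Connected) (hvt : VertexTransitive Γ) (hcard : n + 1 ≤ Fintype.card V)
    (hgap : h Γ (n + 1) > 2 * ((n : ℝ) + 1) * h Γ n) :
    (∃ f : V → Fin n, IsRealizer Γ f) ∧
      ∀ f : V → Fin n, IsRealizer Γ f → IsImprimitive Γ f := by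
  refine ⟨exists_realizer Γ (by omega) (by omega), ?_⟩
  intro f hf
  have hc : Cond n (h Γ n) (h Γ (n + 1)) := ⟨hn, h_pos Γ hconn hn hf, hgap⟩
  obtain ⟨π, hπ⟩ := core Γ hvt hc (hyp_h Γ) (good_of_realizer Γ hf)
    (fun f hf => h_spec Γ (by omega) f hf)
  intro g i
  refine ⟨π g i, ?_⟩
  ext z
  rw [mem_image, mem_part]
  constructor
  · rintro ⟨a, ha, rfl⟩
    rw [mem_part] at ha
    rw [hπ, ha]
  · intro hz
    refine ⟨g⁻¹ z, ?_, RelIso.apply_inv_self g z⟩
    rw [mem_part]
    apply (π g).injective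
    rw [← hπ, RelIso.apply_inv_self, hz]

end Pool.Agent.Results.MP_8474a0_co.AllRealizersImprimitive
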